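import Pool.Agent.V1132.FiniteTypeMain

/-!
# The abelianization of `St_G(D - 1)` is torsion for every group of finite type
-/

set_option autoImplicit false

namespace Pool.Agent.Results.MP_66c699_al.TorsionAbelianization

open Pool.Agent.V1132.RootedTree Pool.Agent.V1132.FiniteType

/-- **Theorem.** Let `d ≥ 2`, `D ≥ 1`, and let `G = G_P` be the group of finite type defined by a
group `P` of automorphisms of the finite subtree of depth `D`. Then there is `N > 0` such that
for every `g` in the level stabilizer `K = St_G(D - 1)` the power `g ^ N` lies in the closure of the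
commutator subgroup of `K`. -/
theorem result (d : ℕ) (hd : 2 ≤ d) (D : ℕ) (hD : 1 ≤ D) (P : Subgroup (BallAut d D)) :
    ∃ N : ℕ, 0 < N ∧ ∀ g ∈ levelStab (finiteType d D P) (D - 1),
      g ^ N ∈ profClosure ((⁅levelStab (finiteType d D P) (D - 1),
        levelStab (finiteType d D P) (D - 1)⁆ : Subgroup (TreeAut d)) : Set (TreeAut d)) :=
  Pool.Agent.V1132.FiniteTypeMain.main (by omega) hD P

end Pool.Agent.Results.MP_66c699_al.TorsionAbelianization
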